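import Pool.Agent.H895.CR.Span

/-!
# Section rings with an action of complexity at most one

By the theorem of Hyry and Smith recorded in the problem file, for a section ring `S` the core and the
graded core of the ideals `I_N` coincide for all large `N` if and only if `S_1 ≠ 0`. Here this is proved
for the section rings `S = ⨁ H⁰(X, L ^ n)` of the ample invertible sheaves `L` on the normal projective
varieties `X` (of any dimension, with arbitrary singularities, over any field) with an action of
complexity at most one and with rational quotient, and on the quotients of such varieties by finite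
groups which normalise the torus. More precisely:

`R` is a normal domain of finite type over the field `k`, graded by the group `ℤ ^ r` of the characters
of a torus, `deg` is the `ℕ`-grading, `R_0 = k`. A finite group `G` acts on `R` and normalises the torus
(`φ g` maps the weight space of `u` to the weight space of `α g u`), and `S = R ^ G`; for `G = 1` this is
`S = R`. The sheaf `O(1)` on `X = Proj S` is invertible; we need only that for two coprime `p` and `q`
the sheaves `O(p)` and `O(q)` are generated by elements of `S_p` and `S_q` (`Gen`): these have no common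
zero on `Proj R`. This is so for all large `p` and `q` if `S` is the section ring of an ample invertible
sheaf.

(1) Torus actions of arbitrary complexity. Let `ψ ≥ 0` be an additive function on the weights with values
in any linearly ordered group, such that the weights with `ψ = 0` form a ray. If the extremal fixed
component `F = Proj R_(ψ = 0)` is a point or a rational curve, in the sense that the fractions of its
sections are contained in a field `k(τ)`, then there is an element of `S_1` which does not vanish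
identically on `F`.

(2) Complexity at most one. Let the homogeneous fractions of degree zero in `R`, with the numerators and
denominators killed by linear maps `D i` of weights `δ i`, be contained in a field `k(τ)`. If there are no
maps `D i` this says that the field of the rational functions on `Proj R` which are invariant under the
torus is contained in `k(τ)`. If a connected reductive group acts, with a maximal torus `T` and the
negative root vectors (or their divided powers) `D i`, then this holds if the field of the rational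
functions invariant under the Borel group `B` is contained in `k(τ)`, for instance for all spherical
varieties, and for all varieties of complexity one under `B` which are unirational, for instance if they
are Fano varieties with rational Gorenstein singularities (these are rationally connected), as in Q1.
Then for every `ℓ : ℤ ^ r →+ ℤ` with `ℓ (δ i) < 0` for all `i` there is an element of `S_1` with a nonzero
component of a weight `v` at which `ℓ` has its minimum on the moment polytope, the convex hull of all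
`w / deg w`. In particular `S_1 ≠ 0`. (If there is no `D i` then every `ℓ` is allowed, so that the moment
polytope is the convex hull of the weights of `S_1`.)

(3) If the torus (with the grading) acts effectively, `G = 1`, and the field of the invariant rational
functions is contained in `k(τ)` then `dim R_1 ≥ r`. For complexity one this is `dim X`.

The proof: let `v` be an extremal ray of the cone of the weights, and `G_v` its stabilizer. The
semi-invariants of the weights `n v` form a normal domain `S'`, a retract of `S`. By Lüroth's theorem its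
field of fractions of degree zero is `k` or `k(t)`. The elements of `S'_p` have the form `y P(t)` with
polynomials `P` without common divisor, and then `y` is integral over `S'`; let `y'` be the same for
`S'_q`. As `S'_p` has no base points, for large `n` the elements of `S'_(n + pq)` are combinations of
elements of `S'_n` and of products of `q` elements of `S'_p`, so that `b ^ p / y ^ q` is integral over
`k[t]` for `b` in `S'_q`, and `y' ^ p / y ^ q` is a polynomial; by symmetry it is a constant. If
`b q = a p + 1` then `z = y' ^ b / y ^ a` has the `p`-th power `y` times a constant, and lies in `S'_1`. The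
sum of its conjugates under `G` is the element of `S_1`.
-/

set_option autoImplicit false

namespace Pool.Agent.Results.MP_954e53_ag.ComplexityOne

open DirectSum IntermediateField
open Pool.Agent.Results.MP_954e53_ag.TorusFixedPoint (InvDeg)
open Pool.Agent.H895.CR

variable {k R Λ : Type} [Field k] [CommRing R] [Algebra k R] [AddCommGroup Λ] [DecidableEq Λ]

/-- `u` is a weight of `R`. -/
def IsWeight (𝒜 : Λ → Submodule k R) (u : Λ) : Prop := ∃ x ∈ 𝒜 u, x ≠ 0

/-- `S = R ^ G` is a section ring with `S_0 = k`: `R` is graded by weights with finite-dimensional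
weight spaces, `deg ≥ 0` on the weights, all elements of degree zero are constants, `G` permutes the
weight spaces and preserves `deg`, and the sheaves `O(p)` and `O(q)` are generated by elements of `S_p`
and `S_q`, for coprime `p` and `q`. -/
structure IsSectionRing (𝒜 : Λ → Submodule k R) [GradedAlgebra 𝒜] (deg : Λ →+ ℤ) {G : Type}
    [Group G] (φ : G →* (R ≃ₐ[k] R)) (α : G → (Λ ≃+ Λ)) (p q : ℕ) : Prop where
  fin : ∀ u, Module.Finite k (𝒜 u)
  nonneg : ∀ u, IsWeight 𝒜 u → 0 ≤ deg u
  const : ∀ u, deg u = 0 → ∀ x ∈ 𝒜 u, ∃ c : k, x = algebraMap k R c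
  pos : ∃ u, 0 < deg u ∧ IsWeight 𝒜 u
  map : ∀ g u, ∀ x ∈ 𝒜 u, φ g x ∈ 𝒜 (α g u)
  deg_map : ∀ g u, deg (α g u) = deg u
  p_pos : 0 < p
  q_pos : 0 < q
  coprime : Nat.Coprime p q
  gen_p : Gen 𝒜 deg φ p
  gen_q : Gen 𝒜 deg φ q

/-- The fractions `a / b` of elements `a`, `b ≠ 0` of the same weight with the property `C` lie in a
purely transcendental extension `k(τ)` of degree one. -/
def InSimpleExtension [IsDomain R] (𝒜 : Λ → Submodule k R) (C : Λ → R → Prop) : Prop :=
  ∃ τ : FractionRing R, Transcendental k τ ∧ ∀ u, ∀ a ∈ 𝒜 u, ∀ b ∈ 𝒜 u, b ≠ 0 → C u a → C u b →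
    algebraMap R (FractionRing R) a / algebraMap R (FractionRing R) b ∈ k⟮τ⟯

/-- `ψ` is nonnegative on the weights, and it vanishes on a weight of positive degree and on no other
element of the same degree. -/
def IsExtremal {Γ : Type} [AddCommGroup Γ] [LinearOrder Γ] (𝒜 : Λ → Submodule k R) (deg : Λ →+ ℤ)
    (ψ : Λ →+ Γ) : Prop :=
  (∀ u, IsWeight 𝒜 u → 0 ≤ ψ u) ∧ (∀ u, ψ u = 0 → deg u = 0 → u = 0) ∧
    ∃ u, ψ u = 0 ∧ 0 < deg u ∧ IsWeight 𝒜 u

/-- There is an element of `S_1` with a nonzero component of weight `v`. -/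
def HasSection (𝒜 : Λ → Submodule k R) [GradedAlgebra 𝒜] (deg : Λ →+ ℤ) {G : Type} [Group G]
    (φ : G →* (R ≃ₐ[k] R)) (v : Λ) : Prop :=
  deg v = 1 ∧ ∃ s : R, InvDeg 𝒜 deg φ 1 s ∧ ((decompose 𝒜 s v : 𝒜 v) : R) ≠ 0

/-- **Section rings with an action of complexity at most one.** -/
theorem result (k R : Type) [Field k] [CommRing R] [IsDomain R] [IsIntegrallyClosed R] [Algebra k R]
    [Algebra.FiniteType k R] {r : ℕ} (𝒜 : (Fin r → ℤ) → Submodule k R) [GradedAlgebra 𝒜]
    (deg : (Fin r → ℤ) →+ ℤ) (G : Type) [Group G] [Finite G] (φ : G →* (R ≃ₐ[k] R))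
    (α : G → ((Fin r → ℤ) ≃+ (Fin r → ℤ))) (p q : ℕ) (hS : IsSectionRing 𝒜 deg φ α p q) :
    -- (1)
    (∀ (Γ : Type) [AddCommGroup Γ] [LinearOrder Γ] [IsOrderedAddMonoid Γ]
      (ψ : (Fin r → ℤ) →+ Γ), IsExtremal 𝒜 deg ψ → InSimpleExtension 𝒜 (fun u _ => ψ u = 0) →
      ∃ v, ψ v = 0 ∧ HasSection 𝒜 deg φ v) ∧
    -- (2)
    (∀ (ι : Type) (δ : ι → Fin r → ℤ) (D : ι → R →ₗ[k] R),
      (∀ i u, ∀ x ∈ 𝒜 u, D i x ∈ 𝒜 (u + δ i)) → (∀ i, deg (δ i) = 0) →
      InSimpleExtension 𝒜 (fun _ a => ∀ i, D i a = 0) →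
      ∀ ℓ : (Fin r → ℤ) →+ ℤ, (∀ i, ℓ (δ i) < 0) →
      ∃ v, HasSection 𝒜 deg φ v ∧ ∀ w, IsWeight 𝒜 w → ℓ v * deg w ≤ ℓ w) ∧
    -- (3)
    (InSimpleExtension 𝒜 (fun _ _ => True) → (∀ g x, φ g x = x) →
      (∀ ℓ : (Fin r → ℤ) →+ ℤ, (∀ u, IsWeight 𝒜 u → ℓ u = 0) → ℓ = 0) →
      ∃ f : Fin r → R, LinearIndependent k f ∧ ∀ i, ∃ u, deg u = 1 ∧ f i ∈ 𝒜 u) := by
  have hdeg : ∀ u, ∀ x ∈ 𝒜 u, x ≠ 0 → 0 ≤ deg u := fun u x hx hx0 => hS.nonneg u ⟨x, hx, hx0⟩
  have h1 : ∀ (Γ : Type) [AddCommGroup Γ] [LinearOrder Γ] [IsOrderedAddMonoid Γ]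
      (ψ : (Fin r → ℤ) →+ Γ), IsExtremal 𝒜 deg ψ → InSimpleExtension 𝒜 (fun u _ => ψ u = 0) →
      ∃ v, ψ v = 0 ∧ HasSection 𝒜 deg φ v := by
    intro Γ _ _ _ ψ hψ ⟨τ, hτ, hfr⟩
    obtain ⟨v, s, hv, hv1, hs, hs0⟩ := core (K := FractionRing R) hdeg hS.fin
      (fun u x hx hx0 => hψ.1 u ⟨x, hx, hx0⟩) hS.map hS.deg_map hψ.2.1 hψ.2.2 hS.p_pos hS.q_pos
      hS.coprime hS.gen_p hS.gen_q hτ (fun u hu a ha b hb hb0 => hfr u a ha b hb hb0 hu hu)
    exact ⟨v, hv, hv1, s, hs, hs0⟩
  have h2 : ∀ (ι : Type) (δ : ι → Fin r → ℤ) (D : ι → R →ₗ[k] R),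
      (∀ i u, ∀ x ∈ 𝒜 u, D i x ∈ 𝒜 (u + δ i)) → (∀ i, deg (δ i) = 0) →
      InSimpleExtension 𝒜 (fun _ a => ∀ i, D i a = 0) →
      ∀ ℓ : (Fin r → ℤ) →+ ℤ, (∀ i, ℓ (δ i) < 0) →
      ∃ v, HasSection 𝒜 deg φ v ∧ ∀ w, IsWeight 𝒜 w → ℓ v * deg w ≤ ℓ w := by
    intro ι δ D hD hδ ⟨τ, hτ, hfr⟩ ℓ hℓ
    obtain ⟨ψ, hψ, hinj, hpt, hψδ, hmin⟩ := exists_ray 𝒜 hdeg hS.const hS.pos δ hδ hℓ
    have hkill : ∀ u, ψ u = 0 → ∀ a ∈ 𝒜 u, ∀ i, D i a = 0 := by
      intro u hu a ha i
      by_contra h0
      have h3 := hψ _ _ (hD i u a ha) h0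
      rw [map_add, hu, zero_add] at h3
      exact absurd (hψδ i) (not_lt.2 h3)
    obtain ⟨v, hv, hs⟩ := h1 _ ψ ⟨fun u ⟨x, hx, hx0⟩ => hψ u x hx hx0, hinj, hpt⟩
      ⟨τ, hτ, fun u a ha b hb hb0 hu _ => hfr u a ha b hb hb0 (hkill u hu a ha)
        (hkill u hu b hb)⟩
    exact ⟨v, hs, fun w ⟨x, hx, hx0⟩ => hmin v w hv hs.1 (hψ w x hx hx0)⟩
  refine ⟨h1, h2, ?_⟩
  intro ⟨τ, hτ, hfr⟩ _ hspan
  refine exists_indep 𝒜 (fun ℓ h => hspan ℓ fun u ⟨x, hx, hx0⟩ => h u x hx hx0) fun ℓ => ?_
  obtain ⟨v, ⟨hv1, s, -, hs0⟩, hmin⟩ := h2 Empty (fun i => i.elim) (fun i => i.elim)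
    (fun i => i.elim) (fun i => i.elim)
    ⟨τ, hτ, fun u a ha b hb hb0 _ _ => hfr u a ha b hb hb0 trivial trivial⟩ ℓ (fun i => i.elim)
  exact ⟨v, hv1, ⟨_, (decompose 𝒜 s v).2, hs0⟩, fun w x hx hx0 => hmin w ⟨x, hx, hx0⟩⟩

end Pool.Agent.Results.MP_954e53_ag.ComplexityOne
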